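import Pool.Agent.Q67.AXI.Defs
import Pool.Agent.Q81.CL.L1

/-!
Project AXI, lemma AXI-EQO: the equation of `OO`.
-/

set_option autoImplicit false

open MeasureTheory Set Metric Filter Topology
open scoped ContDiff
open H459R3.NS Pool.Agent.W268.NS Pool.Agent.Q67.VD

namespace Pool.Agent.Q150.AXI

open Pool.Agent.Q85.CC Pool.Agent.Q85.CL Pool.Agent.TH305.AX Pool.Agent.Q67.AXI
open Pool.Agent.Q129.VD3 (crl str aI bI vort_eq)
open Pool.Agent.Q2.CL (pd_sub_s pd_add_s pd_comm_s pd_congr dt_pdI)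
open Pool.Agent.Q81.CL (sm_crl crl_eqS)

section mult

variable {f : V → ℝ}

/-- the derivative of `sg` -/
noncomputable def sd (j : Fin 3) (x : V) : ℝ :=
  2 * ((if (0 : Fin 3) = j then 1 else 0) * x 0 + (if (1 : Fin 3) = j then 1 else 0) * x 1)

theorem sm_sg : ContDiff ℝ ∞ sg := ((sm_crd 0).pow 2).add ((sm_crd 1).pow 2)

theorem sm_sd (j : Fin 3) : ContDiff ℝ ∞ (sd j) := by
  unfold sd
  fun_prop

theorem pd_sg (j : Fin 3) : pd j sg = sd j := by
  funext x
  have e : sg = fun y : V => y 0 * y 0 + y 1 * y 1 := by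
    funext y
    unfold sg
    ring
  rw [e, pd_add_s ((sm_crd 0).mul (sm_crd 0)) ((sm_crd 1).mul (sm_crd 1)),
    pd_mulf (sm_crd 0) (sm_crd 0), pd_mulf (sm_crd 1) (sm_crd 1), pd_crd, pd_crd]
  unfold sd
  ring

theorem pd_sd (j : Fin 3) (x : V) : pd j (sd j) x =
    2 * ((if (0 : Fin 3) = j then 1 else 0) + (if (1 : Fin 3) = j then 1 else 0)) := by
  have e : sd j = fun y : V => (2 * (if (0 : Fin 3) = j then 1 else 0)) * y 0
      + (2 * (if (1 : Fin 3) = j then 1 else 0)) * y 1 := by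
    funext y
    unfold sd
    ring
  rw [e, pd_add_s (contDiff_const.mul (sm_crd 0)) (contDiff_const.mul (sm_crd 1)),
    pd_mulf contDiff_const (sm_crd 0), pd_mulf contDiff_const (sm_crd 1), pd_crd, pd_crd]
  have h0 : ∀ c : ℝ, pd j (fun _ : V => c) x = 0 := fun c => by
    unfold pd
    simp
  simp only [h0]
  split_ifs <;> norm_num

theorem pd_sgf (hf : ContDiff ℝ ∞ f) (j : Fin 3) :
    pd j (fun y => sg y * f y) = fun x => sg x * pd j f x + sd j x * f x := by
  funext x
  rw [pd_mulf sm_sg hf, pd_sg]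
  try ring

theorem lap_sgf (hf : ContDiff ℝ ∞ f) (x : V) :
    lap (fun y => sg y * f y) x = sg x * lap f x + 4 * RR f x + 4 * f x := by
  have hp : ∀ j, ContDiff ℝ ∞ (pd j f) := fun j => Pool.Agent.W583.MD.sm_pd hf j
  have h1 : ∀ j, pd j (pd j (fun y => sg y * f y)) x = sg x * pd j (pd j f) x
      + 2 * (sd j x * pd j f x) + 2 * ((if (0 : Fin 3) = j then 1 else 0)
        + (if (1 : Fin 3) = j then 1 else 0)) * f x := by
    intro j
    rw [pd_sgf hf, pd_add_s (sm_sg.mul (hp j)) ((sm_sd j).mul hf), pd_mulf sm_sg (hp j),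
      pd_mulf (sm_sd j) hf, pd_sg]
    simp only [pd_sd]
    ring
  unfold lap RR
  simp only [h1, Fin.sum_univ_three]
  unfold sd
  have e1 : ((0 : Fin 3) = 1) = False := by simp
  have e2 : ((0 : Fin 3) = 2) = False := by simp
  have e3 : ((1 : Fin 3) = 0) = False := by simp
  have e4 : ((1 : Fin 3) = 2) = False := by simp
  simp only [e1, e2, e3, e4, if_true, if_false]
  ring

theorem RR_sgf (hf : ContDiff ℝ ∞ f) (x : V) :
    RR (fun y => sg y * f y) x = sg x * RR f x + 2 * sg x * f x := by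
  unfold RR
  rw [pd_sgf hf, pd_sgf hf]
  unfold sd sg
  simp
  ring

theorem adv_sgf (hf : ContDiff ℝ ∞ f) (v : V → V) (x : V) :
    W221.NS.adv v (fun y => sg y * f y) x = sg x * W221.NS.adv v f x + 2 * rad v x * f x := by
  unfold W221.NS.adv rad
  simp only [pd_sgf hf, Fin.sum_univ_three]
  unfold sd
  have e1 : ((0 : Fin 3) = 1) = False := by simp
  have e2 : ((0 : Fin 3) = 2) = False := by simp
  have e3 : ((1 : Fin 3) = 0) = False := by simp
  have e4 : ((1 : Fin 3) = 2) = False := by simp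
  simp only [e1, e2, e3, e4, if_true, if_false]
  ring

end mult

theorem t_EqO (hG : StmAlg) : StmEqO := by
  intro T E c R H u p h t ht x hx hsg
  have hus : ∀ s ∈ Ioo 0 T, ContDiff ℝ ∞ (u s) := by
    intro s hs
    rw [← contDiffOn_univ]
    exact h.smooth_u.comp (f := fun x : V => (s, x)) (by fun_prop) (fun x _ => ⟨hs, mem_univ _⟩)
  have hsm := hus t ht
  have hsp : ContDiff ℝ ∞ (p t) := by
    rw [← contDiffOn_univ]
    exact h.smooth_p.comp (f := fun x : V => (t, x)) (by fun_prop) (fun x _ => ⟨ht, mem_univ _⟩)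
  have hvi : ∀ i, ContDiffOn ℝ ∞ (fun z : ℝ × V => u z.1 z.2 i) (Ioo 0 T ×ˢ univ) :=
    fun i => contDiffOn_pi.1 h.smooth_u i
  have hvs : ∀ s ∈ Ioo 0 T, ContDiff ℝ ∞ (vort (u s)) := by
    intro s hs
    rw [contDiff_pi]
    intro i
    have e : (fun y => vort (u s) y i) = crl (fun i y => u s y i) (aI i) (bI i) :=
      funext fun y => vort_eq _ _ _
    rw [e]
    exact sm_crl (fun i => sm_cmp (hus s hs) i) _ _
  -- the function in terms of the circulation of the vorticity
  have hO : ∀ s ∈ Ioo 0 T, ∀ y, circ (vort (u s)) y = sg y * OO (u s) y := by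
    intro s hs y
    obtain ⟨-, -, hax, -⟩ := hG (u s) (hus s hs) (h.axi s hs)
    obtain ⟨-, -, -, hal⟩ := hG (vort (u s)) (hvs s hs) hax
    obtain ⟨-, -, -, -, -, -, -, -, h9, -⟩ := hal y
    exact h9
  obtain ⟨⟨-, -, -, hOs⟩, -, haw, halg⟩ := hG (u t) hsm (h.axi t ht)
  obtain ⟨a1, a2, a3, a4, -, -, -, -, -, a10, ⟨a11, a12, a13, a14⟩, -⟩ := halg x
  -- the derivative in time
  set τ : Fin 3 → V → ℝ := fun i y => deriv (fun s => u s y i) t with hτd
  have hdw : ∀ i, HasDerivAt (fun s => vort (u s) x i) (crl τ (aI i) (bI i) x) t := by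
    intro i
    have e : (fun s => vort (u s) x i) = fun s => crl (fun i y => u s y i) (aI i) (bI i) x :=
      funext fun s => vort_eq _ _ _
    rw [e]
    exact (dt_pdI (f := fun s y => u s y (bI i)) (hvi _) ht (aI i) x).sub
      (dt_pdI (f := fun s y => u s y (aI i)) (hvi _) ht (bI i) x)
  have hdc : HasDerivAt (fun s => circ (vort (u s)) x)
      (x 0 * crl τ (aI 1) (bI 1) x - x 1 * crl τ (aI 0) (bI 0) x) t :=
    ((hdw 1).const_mul (x 0)).sub ((hdw 0).const_mul (x 1))
  have hdO : HasDerivAt (fun s => OO (u s) x)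
      ((x 0 * crl τ (aI 1) (bI 1) x - x 1 * crl τ (aI 0) (bI 0) x) / sg x) t := by
    refine (hdc.div_const (sg x)).congr_of_eventuallyEq ?_
    filter_upwards [Ioo_mem_nhds ht.1 ht.2] with s hs
    rw [hO s hs, mul_div_cancel_left₀ _ hsg]
  -- the vorticity equation
  have hcrl : ∀ i, crl τ (aI i) (bI i) x = lap (fun y => vort (u t) y i) x
      - (∑ j, u t x j * pd j (fun y => vort (u t) y i) x)
      - str (fun i y => u t y i) (aI i) (bI i) x := by
    intro i
    set τ' : Fin 3 → V → ℝ := fun i x => lap (fun y => u t y i) x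
      - conv (fun i y => u t y i) i x - pd i (p t) x with hτ'
    have e1 := crl_eqS (v := fun i y => u t y i) (fun i => sm_cmp hsm i) hsp (τ := τ')
      (fun i => rfl) (aI i) (bI i) x
    have e2 : ∀ i, τ i =ᶠ[𝓝 x] τ' i := by
      intro i
      filter_upwards [h.openO.mem_nhds hx] with y hy
      have m := h.momentum t ht y hy i
      simp only [hτd, hτ']
      have e5 : conv (fun i y => u t y i) i y = ∑ j, u t y j * pd j (fun y => u t y i) y := rfl
      have e6 : lap (fun y => u t y i) y = ∑ j, pd j (pd j (fun y => u t y i)) y := rfl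
      rw [e5, e6]
      linarith
    have e3 : crl τ (aI i) (bI i) x = crl τ' (aI i) (bI i) x := by
      unfold crl
      rw [pd_congr (e2 _) _, pd_congr (e2 _) _]
    have e4 : (fun y => vort (u t) y i) = crl (fun i y => u t y i) (aI i) (bI i) :=
      funext fun y => vort_eq _ _ _
    rw [e3, e1, e4]
  have hws := hvs t ht
  set Ω := OO (u t) with hΩ
  set w := vort (u t) with hw
  have hF : circ w = fun y => sg y * Ω y := funext fun y => hO t ht y
  -- the circulation of the vorticity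
  have k1 := lap_circ hws x
  have k2 := om_circ hws haw x
  have k3 : RR (circ w) x = x 0 * pd 0 (circ w) x + x 1 * pd 1 (circ w) x := rfl
  have k4 : W221.NS.adv (u t) (circ w) x = x 0 * (∑ j, u t x j * pd j (fun y => w y 1) x)
      - x 1 * (∑ j, u t x j * pd j (fun y => w y 0) x) + (u t x 0 * w x 1 - u t x 1 * w x 0) := by
    unfold W221.NS.adv
    simp only [pd_circ hws, Fin.sum_univ_three]
    have e1 : ((0 : Fin 3) = 1) = False := by simp
    have e2 : ((0 : Fin 3) = 2) = False := by simp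
    have e3 : ((1 : Fin 3) = 0) = False := by simp
    have e4 : ((1 : Fin 3) = 2) = False := by simp
    simp only [e1, e2, e3, e4, if_true, if_false]
    ring
  rw [← k3, hF, RR_sgf hOs] at k2
  have k2' : pd 0 (fun y => w y 1) x - pd 1 (fun y => w y 0) x = RR Ω x + 2 * Ω x := by
    apply mul_left_cancel₀ hsg
    rw [k2]
    ring
  rw [k2', hF, lap_sgf hOs] at k1
  rw [hF, adv_sgf hOs, a10] at k4
  -- the stretching term
  have k5 : x 0 * str (fun i y => u t y i) (aI 1) (bI 1) x
      - x 1 * str (fun i y => u t y i) (aI 0) (bI 0) x = -(u t x 0 * w x 1 - u t x 1 * w x 0) := by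
    have hdiv := h.divfree t ht x hx
    rw [pd_circ hsm] at a11 a12 a13
    have w0 : w x 0 = pd 1 (fun y => u t y 2) x - pd 2 (fun y => u t y 1) x := rfl
    have w1 : w x 1 = pd 2 (fun y => u t y 0) x - pd 0 (fun y => u t y 2) x := rfl
    have w2 : w x 2 = pd 0 (fun y => u t y 1) x - pd 1 (fun y => u t y 0) x := rfl
    have e1 : ((0 : Fin 3) = 1) = False := by simp
    have e2 : ((0 : Fin 3) = 2) = False := by simp
    have e3 : ((1 : Fin 3) = 0) = False := by simp
    have e4 : ((1 : Fin 3) = 2) = False := by simp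
    simp only [e1, e2, e3, e4, if_true, if_false] at a11 a12 a13
    have a0 : aI 0 = 1 := rfl
    have b0 : bI 0 = 2 := rfl
    have a1' : aI 1 = 2 := rfl
    have b1' : bI 1 = 0 := rfl
    rw [a0, b0, a1', b1']
    unfold str
    unfold rad at a14
    simp only [Fin.sum_univ_three] at hdiv ⊢
    simp only [w0, w1, w2] at a11 a12 a14 ⊢
    linear_combination (x 0 * (pd 2 (fun y => u t y 0) x - pd 0 (fun y => u t y 2) x)
        - x 1 * (pd 1 (fun y => u t y 2) x - pd 2 (fun y => u t y 1) x)) * hdiv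
      - (pd 1 (fun y => u t y 2) x - pd 2 (fun y => u t y 1) x) * a11
      - (pd 2 (fun y => u t y 0) x - pd 0 (fun y => u t y 2) x) * a12
      - (pd 0 (fun y => u t y 1) x - pd 1 (fun y => u t y 0) x) * a13
      - (pd 0 (fun y => u t y 1) x - pd 1 (fun y => u t y 0) x) * a14
  have c1 := hcrl 1
  have c0 := hcrl 0
  refine hdO.congr_deriv ?_
  rw [div_eq_iff hsg, c1, c0]
  unfold LL
  have e6 : (lap Ω x + 2 / sg x * RR Ω x - W221.NS.adv (u t) Ω x - 2 * WW (u t) x * JJ (u t) x)
      * sg x = sg x * lap Ω x + 2 * RR Ω x - sg x * W221.NS.adv (u t) Ω x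
        - 2 * sg x * (WW (u t) x * JJ (u t) x) := by
    field_simp
  rw [e6]
  have e7 : u t x 0 * w x 1 - u t x 1 * w x 0
      = sg x * (UU (u t) x * Ω x - WW (u t) x * JJ (u t) x) := by
    rw [a1, a2, a3, a4]
    unfold sg
    ring
  rw [e7] at k4 k5
  linear_combination k4 - k1 - k5


end Pool.Agent.Q150.AXI
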